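import Pool.Agent.W59.GB.Mult

/-!
# A third of all integers in every long window

If any four large, widely spaced sets of integers contain elements of two different sets whose
difference is in `D`, then `D` contains at least a third of the integers in every long window.
-/

set_option autoImplicit false

namespace Pool.Agent.Y862

open Finset Pool.Agent.H461R2.PD Pool.Agent.W59.GB Pool.Agent.H947R3.GM

/-- elements of large sets at distances larger than `R` -/
theorem spaced {ι : Type*} [Fintype ι] [DecidableEq ι] (R : ℕ) (A : ι → Finset ℕ)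
    (hA : ∀ i, (2 * R + 1) * Fintype.card ι ≤ (A i).card) :
    ∃ H : ι → ℕ, (∀ i, H i ∈ A i) ∧ ∀ i j, i ≠ j → H i + R < H j ∨ H j + R < H i := by
  have key : ∀ s : Finset ι, ∃ H : ι → ℕ, (∀ i ∈ s, H i ∈ A i) ∧
      ∀ i ∈ s, ∀ j ∈ s, i ≠ j → H i + R < H j ∨ H j + R < H i := by
    intro s
    induction s using Finset.induction_on with
    | empty => exact ⟨fun _ => 0, by simp, by simp⟩
    | insert a s ha ih =>
      obtain ⟨H, h1, h2⟩ := ih
      have h3 : (s.biUnion fun i => Icc (H i - R) (H i + R)).card ≤ s.card * (2 * R + 1) := by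
        refine card_biUnion_le_card_mul _ _ _ fun i _ => ?_
        rw [Nat.card_Icc]
        omega
      have h4 : s.card + 1 ≤ Fintype.card ι := by
        rw [← card_insert_of_notMem ha]
        exact card_le_univ _
      have h5 : (s.biUnion fun i => Icc (H i - R) (H i + R)).card < (A a).card := by
        refine lt_of_le_of_lt h3 (lt_of_lt_of_le ?_ (hA a))
        have h6 : s.card * (2 * R + 1) < (s.card + 1) * (2 * R + 1) := by
          have : (s.card + 1) * (2 * R + 1) = s.card * (2 * R + 1) + (2 * R + 1) := by ring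
          omega
        refine lt_of_lt_of_le h6 ?_
        rw [mul_comm]
        exact Nat.mul_le_mul_left _ h4
      obtain ⟨x, hx1, hx2⟩ := exists_mem_notMem_of_card_lt_card h5
      have hx3 : ∀ i ∈ s, H i + R < x ∨ x + R < H i := by
        intro i hi
        by_contra hc
        apply hx2
        rw [mem_biUnion]
        refine ⟨i, hi, mem_Icc.2 ?_⟩
        omega
      refine ⟨Function.update H a x, fun i hi => ?_, fun i hi j hj hij => ?_⟩
      · rcases mem_insert.1 hi with rfl | hi'
        · rw [Function.update_self]; exact hx1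
        · rw [Function.update_of_ne (ne_of_mem_of_not_mem hi' ha)]; exact h1 i hi'
      · rcases mem_insert.1 hi with rfl | hi'
        · rcases mem_insert.1 hj with rfl | hj'
          · exact absurd rfl hij
          · rw [Function.update_self, Function.update_of_ne (ne_of_mem_of_not_mem hj' ha)]
            exact (hx3 j hj').symm
        · rcases mem_insert.1 hj with rfl | hj'
          · rw [Function.update_self, Function.update_of_ne (ne_of_mem_of_not_mem hi' ha)]
            exact hx3 i hi'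
          · rw [Function.update_of_ne (ne_of_mem_of_not_mem hi' ha),
              Function.update_of_ne (ne_of_mem_of_not_mem hj' ha)]
            exact h2 i hi' j hj' hij
  obtain ⟨H, h1, h2⟩ := key univ
  exact ⟨H, fun i => h1 i (mem_univ _), fun i j => h2 i (mem_univ _) j (mem_univ _)⟩

/-- four classes -/
def Four (R : ℕ) (D : Set ℕ) : Prop := ∃ K : ℕ, 1 ≤ K ∧ ∀ H : Fin 4 → Fin K → ℕ,
  (∀ x y : Fin 4 × Fin K, x ≠ y → H x.1 x.2 + R < H y.1 y.2 ∨ H y.1 y.2 + R < H x.1 x.2) →
  ∃ g g' i i', g ≠ g' ∧ H g i < H g' i' ∧ H g' i' - H g i ∈ D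

theorem not_four {R : ℕ} {D : Set ℕ} (h : Four R D) : ∃ K₀, ¬ TemplC D 1 4 (fun _ => True) K₀ := by
  obtain ⟨K, hK, h⟩ := h
  refine ⟨(2 * R + 1) * Fintype.card (Fin 4 × Fin K), ?_⟩
  rintro ⟨A, r, -, hA, hdis, hbad, -⟩
  obtain ⟨H, h1, h2⟩ := spaced R (fun x : Fin 4 × Fin K => A x.1) (fun x => (hA x.1).ge)
  obtain ⟨g, g', i, i', hg, hlt, hmem⟩ := h (fun g i => H (g, i)) (fun x y hxy => h2 x y hxy)
  exact (hbad g g' hg _ (h1 (g, i)) _ (h1 (g', i'))).1 hlt hmem

/-- **a third of the integers in every long window** -/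
theorem third_win {R : ℕ} {D : Set ℕ} (h : Four R D) {ε : ℝ} (hε : 0 < ε) :
    ∃ N₀ : ℕ, ∀ M ≥ N₀, ∀ u, (1 / 3 - ε) * (M : ℝ) ≤ (win D u M : ℝ) := by
  classical
  obtain ⟨K₁, h4⟩ := not_four h
  obtain ⟨t, ht3, ht, K₀, hK₀⟩ : ∃ t ≤ 3, (∀ M, TemplC D 1 t (fun _ => True) M) ∧
      ∃ K₀, ¬ TemplC D 1 (t + 1) (fun _ => True) K₀ := by
    by_contra hcon
    push Not at hcon
    have h1 : ∀ M, TemplC D 1 1 (fun _ => True) M := templ_one _ one_pos 0 trivial
    have h2 := hcon 1 (by norm_num) h1
    have h3 := hcon 2 (by norm_num) h2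
    exact h4 (hcon 3 le_rfl h3 K₁)
  obtain ⟨N₀, hN₀⟩ := Pool.Agent.W59.GB.step (X := Set.univ) (Y := Set.univ) one_pos (fun _ _ _ _ => trivial) ht hK₀
    (fun _ _ _ _ _ _ _ => trivial) hε
  refine ⟨max N₀ ⌈1 / (2 * ε)⌉₊, fun M hM u => ?_⟩
  have h1 := hN₀ M ((le_max_left _ _).trans hM) u
  have h2 := classes_win (P := 1) one_pos (F := {0}) (by simp) (X := Set.univ) (by simp) u M
  rw [Set.inter_univ] at h1
  set d : ℝ := (win D u M : ℝ) with hd
  have hd0 : 0 ≤ d := by positivity
  have ht4 : (t : ℝ) ≤ 3 := by exact_mod_cast ht3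
  have h8 : (t : ℝ) * d ≤ 3 * d := mul_le_mul_of_nonneg_right ht4 hd0
  have h9 : 1 ≤ 2 * ε * M := by
    have h1 : 1 / (2 * ε) ≤ M :=
      (Nat.le_ceil _).trans (by exact_mod_cast (le_max_right _ _).trans hM)
    rw [div_le_iff₀ (by positivity)] at h1
    linarith
  rw [card_singleton] at h2
  push_cast at h2
  linarith

end Pool.Agent.Y862
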