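import Pool.Agent.TH899.UG.Iso
import Pool.Agent.Y862.Win3

/-!
# Consecutive isolated primes of orbits `x ↦ D x + e`: a third of all times, in every long window
-/

set_option autoImplicit false

namespace Pool.Agent.Y862

open Finset Filter Pool.Agent.H447R3.IT Pool.Agent.H732R3.BigQ Pool.Agent.W59.GB
open Pool.Agent.W218.OG (Pr S_iter_add B_eq B_ne_zero dvd_B big_primes exists_zero block not_Pr
  to_prime pr_nat big_count)
open Pool.Agent.TH899.UG Pool.Agent.TH899.UG.OG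

/-- the `i` such that, for many primes `p`, the value at time `m i` of the orbit which starts at `p`
is the next prime of the orbit, it is followed by `R` values which are not prime, and the `R` values
which precede `p` are not prime -/
def GapOI (D : ℕ) (e : ℤ) (m R : ℕ) : Set ℕ := {i | Big {p : ℕ | p.Prime ∧
  Pr ((S D e)^[m * i] (p : ℤ)) ∧ (∀ l, 0 < l → l < m * i → ¬ Pr ((S D e)^[l] (p : ℤ))) ∧
  ∀ l, 0 < l → l ≤ R → ¬ Pr ((S D e)^[m * i + l] (p : ℤ)) ∧ ∀ z : ℤ, Pr z → (S D e)^[l] z ≠ p}}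

/-- **two of four classes contain the times of consecutive isolated primes of many orbits** -/
theorem consecG (D : ℕ) (e : ℤ) (m : ℕ) (hD : 2 ≤ D) (he : e ≠ 0) (hcop : IsCoprime e (D : ℤ))
    (hm0 : 0 < m) (hm : ∀ p : ℕ, p.Prime → p ∣ D - 1 → (p : ℤ) ∣ e * m) (R : ℕ) :
    ∃ K : ℕ, 1 ≤ K ∧ ∀ H₀ : Fin 4 → Fin K → ℕ,
      (∀ x y : Fin 4 × Fin K, x ≠ y → m * H₀ x.1 x.2 + R < m * H₀ y.1 y.2 ∨
        m * H₀ y.1 y.2 + R < m * H₀ x.1 x.2) →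
      ∃ g g' i i', g ≠ g' ∧ H₀ g i < H₀ g' i' ∧ H₀ g' i' - H₀ g i ∈ GapOI D e m R := by
  classical
  obtain ⟨K, hK, hQ⟩ := fourC
  refine ⟨K, hK, fun H₀ hsp => ?_⟩
  obtain ⟨H, hH⟩ : ∃ H : Fin 4 → Fin K → ℕ, ∀ g i, H g i = H₀ g i + (R + 1) := ⟨_, fun _ _ => rfl⟩
  have hsp' : ∀ x y : Fin 4 × Fin K, x ≠ y → m * H x.1 x.2 + R < m * H y.1 y.2 ∨
      m * H y.1 y.2 + R < m * H x.1 x.2 := by
    intro x y hxy
    simp only [hH, mul_add]
    rcases hsp x y hxy with h | h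
    · left; omega
    · right; omega
  have hinj : Function.Injective (fun x : Fin 4 × Fin K => H x.1 x.2) := by
    intro x y h
    have h' : H x.1 x.2 = H y.1 y.2 := h
    by_contra hxy
    rcases hsp' x y hxy with h1 | h1
    · rw [h'] at h1; omega
    · rw [h'] at h1; omega
  set U₀ : ℕ := univ.sup fun x : Fin 4 × Fin K => m * H x.1 x.2 with hU₀
  have hsup : ∀ g i, m * H g i ≤ U₀ := fun g i =>
    le_sup (f := fun x : Fin 4 × Fin K => m * H x.1 x.2) (mem_univ (g, i))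
  obtain ⟨W, Q, r, F, c, hQ0, hW0, hW, hF, hB⟩ :=
    orbit_classesW (U₀ + R) D e m hD he hcop hm0 hm _ hQ H hinj
  have hRi : ∀ g i, R < m * H g i := by
    intro g i
    have h1 := hH g i
    have h2 : H g i ≤ m * H g i := Nat.le_mul_of_pos_left _ hm0
    omega
  have hF2 : 1 < F.card := hF
  obtain ⟨g₁, hg₁, g₂, hg₂, hg12⟩ := one_lt_card.1 hF2
  set P : ℕ → Fin 4 → Fin K → Prop := fun n g i => Pr ((S D e)^[m * H g i] ((Q * n + r : ℕ) : ℤ))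
    with hP
  set X : Set ℕ := {n : ℕ | (∀ g ∈ F, P n g (c g)) ∧
    ∀ t ≤ W, (∀ g i, m * H g i ≠ t) → ¬ Pr ((S D e)^[t] ((Q * n + r : ℕ) : ℤ))} with hX
  have hXB : Big X := hB
  set Y : (Fin 4 × Fin K) × (Fin 4 × Fin K) → Set ℕ := fun x =>
    {n | x.1.1 ≠ x.2.1 ∧ H x.1.1 x.1.2 < H x.2.1 x.2.2 ∧ P n x.1.1 x.1.2 ∧ P n x.2.1 x.2.2 ∧
      (∀ t, m * H x.1.1 x.1.2 < t → t < m * H x.2.1 x.2.2 →
        ¬ Pr ((S D e)^[t] ((Q * n + r : ℕ) : ℤ))) ∧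
      ∀ l, 0 < l → l ≤ R → ¬ Pr ((S D e)^[m * H x.2.1 x.2.2 + l] ((Q * n + r : ℕ) : ℤ)) ∧
        ¬ Pr ((S D e)^[m * H x.1.1 x.1.2 - l] ((Q * n + r : ℕ) : ℤ))} with hY
  have hcover : X ⊆ ⋃ x, Y x := by
    rintro n ⟨hn, hcomp⟩
    obtain ⟨g, hg, g', hg', hne, hlt⟩ : ∃ g ∈ F, ∃ g' ∈ F, g ≠ g' ∧ H g (c g) < H g' (c g') := by
      rcases lt_trichotomy (H g₁ (c g₁)) (H g₂ (c g₂)) with hl | he | hl
      · exact ⟨g₁, hg₁, g₂, hg₂, hg12, hl⟩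
      · exfalso
        have := hinj (a₁ := (g₁, c g₁)) (a₂ := (g₂, c g₂)) he
        exact hg12 (Prod.mk.inj this).1
      · exact ⟨g₂, hg₂, g₁, hg₁, hg12.symm, hl⟩
    -- the last prime of class `g`
    set A : Finset (Fin K) := univ.filter fun i => P n g i ∧ H g i < H g' (c g') with hA
    have hAne : A.Nonempty := ⟨c g, by
      rw [hA, mem_filter]; exact ⟨mem_univ _, hn g hg, hlt⟩⟩
    obtain ⟨i, hiA, hi⟩ := exists_max_image A (fun i => H g i) hAne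
    rw [hA, mem_filter] at hiA
    -- the next prime
    set C : Finset (Fin 4 × Fin K) := univ.filter fun x =>
      P n x.1 x.2 ∧ H g i < H x.1 x.2 ∧ H x.1 x.2 ≤ H g' (c g') with hC
    have hCne : C.Nonempty := ⟨(g', c g'), by
      rw [hC, mem_filter]; exact ⟨mem_univ _, hn g' hg', hiA.2.2, le_rfl⟩⟩
    obtain ⟨⟨g'', i''⟩, hxC, hx⟩ := exists_min_image C (fun x => H x.1 x.2) hCne
    rw [hC, mem_filter] at hxC
    have hx' : ∀ x ∈ C, H g'' i'' ≤ H x.1 x.2 := hx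
    have hx1 : P n g'' i'' := hxC.2.1
    have hx2 : H g i < H g'' i'' := hxC.2.2.1
    have hx3 : H g'' i'' ≤ H g' (c g') := hxC.2.2.2
    rw [Set.mem_iUnion]
    refine ⟨((g, i), (g'', i'')), ?_, hx2, hiA.2.1, hx1, ?_, ?_⟩
    · intro heq
      have heq' : g = g'' := heq
      subst heq'
      rcases hx3.lt_or_eq with h1 | h1
      · have h2 : H g i'' ≤ H g i := hi i'' (by
          rw [hA, mem_filter]; exact ⟨mem_univ _, hx1, h1⟩)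
        omega
      · have := hinj (a₁ := (g, i'')) (a₂ := (g', c g')) h1
        exact hne (Prod.mk.inj this).1
    · intro t ht1 ht2 htp
      have ht1' : m * H g i < t := ht1
      have ht2' : t < m * H g'' i'' := ht2
      have htW : t ≤ W := by have := hW g'' i''; omega
      by_cases hex : ∃ g₀ i₀, m * H g₀ i₀ = t
      · obtain ⟨g₀, i₀, rfl⟩ := hex
        have h1 : H g i < H g₀ i₀ := Nat.lt_of_mul_lt_mul_left ht1'
        have h2 : H g₀ i₀ < H g'' i'' := Nat.lt_of_mul_lt_mul_left ht2'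
        have h3 : H g'' i'' ≤ H g₀ i₀ := hx' (g₀, i₀) (by
          rw [hC, mem_filter]
          exact ⟨mem_univ _, htp, h1, (h2.trans_le hx3).le⟩)
        omega
      · push Not at hex
        exact hcomp t htW hex htp
    · intro l hl0 hl1
      refine ⟨hcomp _ ?_ ?_, hcomp _ ?_ ?_⟩
      · have := hsup g'' i''
        show m * H g'' i'' + l ≤ W
        omega
      · intro g₀ i₀ h
        have h' : m * H g₀ i₀ = m * H g'' i'' + l := h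
        have hne' : ((g₀, i₀) : Fin 4 × Fin K) ≠ (g'', i'') := by
          intro h0
          have h1 : g₀ = g'' := (Prod.mk.inj h0).1
          have h2 : i₀ = i'' := (Prod.mk.inj h0).2
          rw [h1, h2] at h'
          omega
        have := hsp' _ _ hne'
        simp only at this
        omega
      · have := hW g i
        show m * H g i - l ≤ W
        omega
      · intro g₀ i₀ h
        have h' : m * H g₀ i₀ = m * H g i - l := h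
        have hr := hRi g i
        have hne' : ((g₀, i₀) : Fin 4 × Fin K) ≠ (g, i) := by
          intro h0
          have h1 : g₀ = g := (Prod.mk.inj h0).1
          have h2 : i₀ = i := (Prod.mk.inj h0).2
          rw [h1, h2] at h'
          omega
        have := hsp' _ _ hne'
        simp only at this
        omega
  obtain ⟨x, hx⟩ := big_cover Y X hXB hcover
  obtain ⟨n₀, hn₀⟩ := hx.infinite.nonempty
  have hlt := hn₀.2.1
  have hsub : H₀ x.2.1 x.2.2 - H₀ x.1.1 x.1.2 = H x.2.1 x.2.2 - H x.1.1 x.1.2 := by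
    rw [hH, hH]; omega
  refine ⟨x.1.1, x.2.1, x.1.2, x.2.2, hn₀.1, ?_, ?_⟩
  · have h1 := hH x.2.1 x.2.2
    have h2 := hH x.1.1 x.1.2
    omega
  rw [hsub]
  have key : ∀ (n l : ℕ) (p : ℕ), (p : ℤ) = (S D e)^[m * H x.1.1 x.1.2] ((Q * n + r : ℕ) : ℤ) →
      (S D e)^[l] (p : ℤ) = (S D e)^[m * H x.1.1 x.1.2 + l] ((Q * n + r : ℕ) : ℤ) := by
    intro n l p hp
    rw [hp, ← S_iter_add]
  have e1 : m * H x.1.1 x.1.2 + m * (H x.2.1 x.2.2 - H x.1.1 x.1.2) = m * H x.2.1 x.2.2 := by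
    rw [← mul_add]; congr 1; omega
  refine to_prime hD hQ0 hx (i := m * H x.1.1 x.1.2) (fun n hn => hn.2.2.1) fun n hn p hp hpp => ?_
  refine ⟨hpp, ?_, ?_, ?_⟩
  · rw [key n _ p hp, e1]
    exact hn.2.2.2.1
  · intro l hl1 hl2
    rw [key n _ p hp]
    refine hn.2.2.2.2.1 _ (by omega) ?_
    omega
  · intro l hl0 hl1
    have hr := hRi x.1.1 x.1.2
    refine ⟨?_, ?_⟩
    · rw [key n _ p hp]
      have e2 : m * H x.1.1 x.1.2 + (m * (H x.2.1 x.2.2 - H x.1.1 x.1.2) + l) =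
          m * H x.2.1 x.2.2 + l := by omega
      rw [e2]
      exact (hn.2.2.2.2.2 l hl0 hl1).1
    · intro z hz hzp
      have h1 : (S D e)^[l] z =
          (S D e)^[l] ((S D e)^[m * H x.1.1 x.1.2 - l] ((Q * n + r : ℕ) : ℤ)) := by
        rw [hzp, ← S_iter_add, hp]
        congr 1
        omega
      have h2 := S_inj hD h1
      rw [h2] at hz
      exact (hn.2.2.2.2.2 l hl0 hl1).2 hz

/-- all times, widely spaced classes -/
theorem consecI (D : ℕ) (e : ℤ) (m : ℕ) (hD : 2 ≤ D) (he : e ≠ 0) (hcop : IsCoprime e (D : ℤ))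
    (hm0 : 0 < m) (hm : ∀ p : ℕ, p.Prime → p ∣ D - 1 → (p : ℤ) ∣ e * m) (R : ℕ) :
    Four R (GapOI D e m R) := by
  obtain ⟨K, hK, h⟩ := consecG D e m hD he hcop hm0 hm R
  refine ⟨K, hK, fun H₀ hsp => h H₀ fun x y hxy => ?_⟩
  have key : ∀ a b : ℕ, a + R < b → m * a + R < m * b := by
    intro a b hab
    have h3 : a + (R + 1) ≤ b := by omega
    have h4 := Nat.mul_le_mul_left m h3
    rw [mul_add] at h4
    have h5 : R + 1 ≤ m * (R + 1) := Nat.le_mul_of_pos_left _ hm0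
    omega
  exact (hsp x y hxy).imp (key _ _) (key _ _)

/-- multiples of a number larger than `R`, arbitrary classes -/
theorem consecM (D : ℕ) (e : ℤ) (m : ℕ) (hD : 2 ≤ D) (he : e ≠ 0) (hcop : IsCoprime e (D : ℤ))
    (hm0 : 0 < m) (hm : ∀ p : ℕ, p.Prime → p ∣ D - 1 → (p : ℤ) ∣ e * m) (R : ℕ) (hR : R < m) :
    ∃ K : ℕ, 1 ≤ K ∧ ∀ H₀ : Fin 4 → Fin K → ℕ,
      Function.Injective (fun x : Fin 4 × Fin K => H₀ x.1 x.2) →
      ∃ g g' i i', g ≠ g' ∧ H₀ g i < H₀ g' i' ∧ H₀ g' i' - H₀ g i ∈ GapOI D e m R := by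
  obtain ⟨K, hK, h⟩ := consecG D e m hD he hcop hm0 hm R
  refine ⟨K, hK, fun H₀ hinj => h H₀ fun x y hxy => ?_⟩
  have key : ∀ a b : ℕ, a < b → m * a + R < m * b := by
    intro a b hab
    have h4 : m * (a + 1) ≤ m * b := Nat.mul_le_mul_left m hab
    rw [mul_add, mul_one] at h4
    omega
  have hne : H₀ x.1 x.2 ≠ H₀ y.1 y.2 := fun h => hxy (hinj h)
  exact (lt_or_gt_of_ne hne).imp (key _ _) (key _ _)

/-- one half: consecutive isolated primes of orbits -/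
theorem generalH (D : ℕ) (e : ℤ) (m : ℕ) (hD : 2 ≤ D) (he : e ≠ 0) (hcop : IsCoprime e (D : ℤ))
    (hm0 : 0 < m) (hm : ∀ p : ℕ, p.Prime → p ∣ D - 1 → (p : ℤ) ∣ e * m) (R : ℕ) (hR : R < m)
    (ε : ℝ) (hε : 0 < ε) :
    ∃ M : ℕ, 0 < M ∧ ∀ N : ℕ, 0 < N → M ∣ N → ∃ L : ℕ, ∀ T : ℕ, L ≤ T → ∀ u : ℕ,
      (1 / 2 - ε) * T ≤ ({k : ℕ | u < k ∧ k ≤ u + T ∧ N * k ∈ GapOI D e m R}.ncard : ℝ) := by
  refine Pool.Agent.W25.TF.tf4 Pool.Agent.W25.TF.s_maiF4 _ 1 ?_ ε hε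
  obtain ⟨K, hK, H⟩ := consecM D e m hD he hcop hm0 hm R hR
  exact ⟨K, hK, fun h hh => H h hh.1⟩

/-- the conclusion for an orbit `a` of natural numbers, half of the multiples -/
theorem transferH (D : ℕ) (e : ℤ) (m₀ : ℕ) (hD : 2 ≤ D) (he : e ≠ 0) (hcop : IsCoprime e (D : ℤ))
    (hm00 : 0 < m₀) (hm' : ∀ p : ℕ, p.Prime → p ∣ D - 1 → (p : ℤ) ∣ e * m₀) (a : ℕ → ℕ → ℕ)
    (ha : ∀ p j : ℕ, p.Prime → ((a p j : ℕ) : ℤ) = (S D e)^[j] (p : ℤ)) (R : ℕ) (ε : ℝ)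
    (hε : 0 < ε) :
    ∃ M : ℕ, 0 < M ∧ ∀ N : ℕ, 0 < N → M ∣ N → ∃ L : ℕ, ∀ T : ℕ, L ≤ T → ∀ u : ℕ,
      (1 / 2 - ε) * (T : ℝ) ≤ ({k : ℕ | u < k ∧ k ≤ u + T ∧ ∀ η : ℝ, 0 < η → ∃ᶠ x : ℝ in atTop,
        x ^ (1 - η) ≤ ({p : ℕ | (p : ℝ) ≤ x ∧ p.Prime ∧ (a p (N * k)).Prime ∧
          (∀ l, 0 < l → l < N * k → ¬ (a p l).Prime) ∧
          ∀ l, 0 < l → l ≤ R → ¬ (a p (N * k + l)).Prime ∧
            ∀ q : ℕ, q.Prime → a q l ≠ p}.ncard : ℝ)}.ncard : ℝ) := by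
  obtain ⟨m, hmd⟩ : ∃ m, m = m₀ * (R + 1) := ⟨_, rfl⟩
  have hmR : R < m := by
    rw [hmd]
    nlinarith
  have hm0 : 0 < m := by omega
  have hm : ∀ p : ℕ, p.Prime → p ∣ D - 1 → (p : ℤ) ∣ e * m := by
    intro p hp hpd
    rw [hmd]
    push_cast
    rw [← mul_assoc]
    exact (hm' p hp hpd).mul_right _
  obtain ⟨M', hM', h2⟩ := generalH D e m hD he hcop hm0 hm R hmR ε hε
  have hpr : ∀ p j : ℕ, p.Prime → (Pr ((S D e)^[j] (p : ℤ)) ↔ (a p j).Prime) := by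
    intro p j hp
    rw [← ha p j hp, pr_nat]
  refine ⟨m * M', Nat.mul_pos hm0 hM', fun N hN hdv => ?_⟩
  obtain ⟨t, rfl⟩ := hdv
  have ht : 0 < t := Nat.pos_of_ne_zero (by rintro rfl; simp at hN)
  obtain ⟨L, hL⟩ := h2 (M' * t) (Nat.mul_pos hM' ht) (dvd_mul_right _ _)
  refine ⟨L, fun T hT u => (hL T hT u).trans ?_⟩
  rw [Nat.cast_le]
  refine Set.ncard_le_ncard ?_ ((Set.finite_Ioc u (u + T)).subset fun k hk => ⟨hk.1, hk.2.1⟩)
  rintro k ⟨hk1, hk2, hk3⟩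
  refine ⟨hk1, hk2, big_count (Big.mono ?_ hk3)⟩
  rintro p ⟨hp, hp1, hp2, hp3⟩
  have e1 : m * (M' * t * k) = m * M' * t * k := by ring
  rw [e1] at hp1 hp2 hp3
  refine ⟨hp, (hpr p _ hp).1 hp1, fun l h0 h1 h2 => hp2 l h0 h1 ((hpr p _ hp).2 h2),
    fun l hl0 hl1 => ?_⟩
  obtain ⟨k1, k2⟩ := hp3 l hl0 hl1
  refine ⟨fun h => k1 ((hpr p _ hp).2 h), fun q hq h => ?_⟩
  refine k2 (q : ℤ) ?_ ?_
  · exact ⟨by exact_mod_cast hq.pos, Nat.prime_iff_prime_int.1 hq⟩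
  · rw [← ha q l hq, h]

/-- the conclusion for an orbit `a` of natural numbers -/
theorem transfer3 (D : ℕ) (e : ℤ) (m : ℕ) (hD : 2 ≤ D) (he : e ≠ 0) (hcop : IsCoprime e (D : ℤ))
    (hm0 : 0 < m) (hm : ∀ p : ℕ, p.Prime → p ∣ D - 1 → (p : ℤ) ∣ e * m) (a : ℕ → ℕ → ℕ)
    (ha : ∀ p j : ℕ, p.Prime → ((a p j : ℕ) : ℤ) = (S D e)^[j] (p : ℤ)) (R : ℕ) (ε : ℝ)
    (hε : 0 < ε) : ∃ L : ℕ, ∀ T : ℕ, L ≤ T → ∀ u : ℕ,
      (1 / 3 - ε) * (T : ℝ) ≤ ({k : ℕ | u < k ∧ k ≤ u + T ∧ ∀ η : ℝ, 0 < η → ∃ᶠ x : ℝ in atTop,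
        x ^ (1 - η) ≤ ({p : ℕ | (p : ℝ) ≤ x ∧ p.Prime ∧ (a p (m * k)).Prime ∧
          (∀ l, 0 < l → l < m * k → ¬ (a p l).Prime) ∧
          ∀ l, 0 < l → l ≤ R → ¬ (a p (m * k + l)).Prime ∧
            ∀ q : ℕ, q.Prime → a q l ≠ p}.ncard : ℝ)}.ncard : ℝ) := by
  classical
  obtain ⟨L, hL⟩ := third_win (consecI D e m hD he hcop hm0 hm R) hε
  have hpr : ∀ p j : ℕ, p.Prime → (Pr ((S D e)^[j] (p : ℤ)) ↔ (a p j).Prime) := by
    intro p j hp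
    rw [← ha p j hp, pr_nat]
  refine ⟨L, fun T hT u => (hL T hT u).trans ?_⟩
  rw [Nat.cast_le, win_eq, ← Set.ncard_coe_finset]
  refine Set.ncard_le_ncard ?_ ((Set.finite_Ioc u (u + T)).subset fun k hk => ⟨hk.1, hk.2.1⟩)
  intro k hk
  rw [mem_coe, mem_filter, mem_Ioc] at hk
  obtain ⟨⟨hk1, hk2⟩, hk3⟩ := hk
  refine ⟨hk1, hk2, big_count (Big.mono ?_ hk3)⟩
  rintro p ⟨hp, hp1, hp2, hp3⟩
  refine ⟨hp, (hpr p _ hp).1 hp1, fun l h0 h1 h2 => hp2 l h0 h1 ((hpr p _ hp).2 h2),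
    fun l hl0 hl1 => ?_⟩
  obtain ⟨k1, k2⟩ := hp3 l hl0 hl1
  refine ⟨fun h => k1 ((hpr p _ hp).2 h), fun q hq h => ?_⟩
  refine k2 (q : ℤ) ?_ ?_
  · exact ⟨by exact_mod_cast hq.pos, Nat.prime_iff_prime_int.1 hq⟩
  · rw [← ha q l hq, h]

end Pool.Agent.Y862
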