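import Pool.Agent.TH464.PO.PolyExact
import Pool.Agent.TH464.PO.Ext
import Pool.Agent.W182.PW.Lin

set_option autoImplicit false

/-!
# Almost prime values of systems of linear forms: the statistics in short windows
-/

namespace Pool.Agent.Y862.LS

open Polynomial Finset Filter
open Pool.Agent.W123.RP Pool.Agent.H373R2.T7 Pool.Agent.W123.RU Pool.Agent.W123.RU.Poly
open Pool.Agent.TH464.PW Pool.Agent.TH464.PO Pool.Agent.W182.PW

variable {ι : Type}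

/-- the values are almost prime -/
def AP (a : ι → ℕ) (b : ι → ℤ) (r X m : ℕ) : Prop :=
  ∀ i, ((a i : ℤ) * m + b i).natAbs.primeFactorsList.length ≤ r ∧
    ∀ p : ℕ, p.Prime → (p : ℤ) ∣ (a i : ℤ) * m + b i → (X : ℝ) ^ (1 / (r : ℝ)) < (p : ℝ)

/-- the system -/
noncomputable def ls (a : ι → ℕ) (b : ι → ℤ) : ι → ℤ[X] := fun i => lin (a i) (b i)

lemma ls_sys [Fintype ι] (a : ι → ℕ) (b : ι → ℤ) (ha : ∀ i, 0 < a i)
    (hab : ∀ i, IsCoprime (a i : ℤ) (b i)) (hinj : ∀ i j, a i = a j → b i = b j → i = j)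
    (hadm : ∀ p : ℕ, p.Prime → ∃ m : ℕ, ∀ i, ¬ (p : ℤ) ∣ (a i : ℤ) * m + b i) :
    Sys (ls a b) where
  irr := fun i => lin_irr _ _ (ha i) (hab i)
  deg := fun i => lin_deg _ _ (ha i)
  lead := fun i => lin_lead _ _ (ha i)
  inj := fun i j hij => hinj i j (lin_inj hij).1 (lin_inj hij).2
  adm := fun p hp => by
    obtain ⟨m, hm⟩ := hadm p hp
    refine ⟨m, fun i => ?_⟩
    unfold ls
    rw [lin_eval]
    exact hm i

lemma ls_noTr (a : ι → ℕ) (b : ι → ℤ)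
    (hT : ∀ i j, ∀ t : ℕ, 1 ≤ t → ¬ (a i = a j ∧ b i = (a j : ℤ) * t + b j)) : NoTr (ls a b) := by
  intro i j t ht h
  have h0 : lin (a i) (b i) = lin (a j) ((a j : ℤ) * t + b j) := by
    have h1 : lin (a i) (b i) = (lin (a j) (b j)).comp (X + C (t : ℤ)) := h
    rw [h1]
    unfold lin
    simp only [add_comp, mul_comp, C_comp, X_comp, C_add, C_mul]
    ring
  exact hT i j t ht (lin_inj h0)

lemma ls_Q (a : ι → ℕ) (b : ι → ℤ) (p m : ℕ) :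
    Q (ls a b) p m ↔ ∃ i, (p : ℤ) ∣ (a i : ℤ) * m + b i := by
  unfold Q ls
  simp only [lin_eval]

lemma card_inst (p : ℕ) (P : ℕ → Prop) (i1 i2 : DecidablePred P) :
    ((@Finset.filter ℕ P i1 (Finset.range p)).card : ℝ) =
      ((@Finset.filter ℕ P i2 (Finset.range p)).card : ℝ) := by
  congr

open Classical in
lemma ls_V (a : ι → ℕ) (b : ι → ℤ) (y : ℕ) :
    Vq (Q (ls a b)) y = ∏ p ∈ (Finset.range (y + 1)).filter Nat.Prime,
    (1 - (((Finset.range p).filter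
      (fun m : ℕ => ∃ i, (p : ℤ) ∣ (a i : ℤ) * m + b i)).card : ℝ) / p) := by
  unfold Vq
  apply Finset.prod_congr
  · unfold pz
    ext p
    simp only [mem_filter, mem_Icc, mem_range]
    constructor
    · rintro ⟨h1, h2⟩
      exact ⟨by omega, h2⟩
    · rintro ⟨h1, h2⟩
      exact ⟨⟨h2.one_lt.le, by omega⟩, h2⟩
  · intro p _
    unfold nuB
    simp only [ls_Q]

lemma sf_AP [Fintype ι] [Nonempty ι] (a : ι → ℕ) (b : ι → ℤ) (r : ℕ) (hr : 1 ≤ r) :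
    ∀ᶠ X : ℕ in atTop, ∀ m : ℕ, m ≤ 3 * X →
    (Sf (Q (ls a b)) ⌊(X : ℝ) ^ (1 / (r : ℝ))⌋₊ m ↔ AP a b r X m) := by
  have hr0 : (r : ℝ) ≠ 0 := by exact_mod_cast (by omega : r ≠ 0)
  have hrpos : (0 : ℝ) < r := by exact_mod_cast (by omega : 0 < r)
  have hpow1 : Tendsto (fun X : ℕ => (X : ℝ) ^ (1 / (r : ℝ))) atTop atTop :=
    (tendsto_rpow_atTop (by positivity)).comp tendsto_natCast_atTop_atTop
  obtain ⟨S, hS⟩ : ∃ S : ℝ, ∀ i, 3 * (a i : ℝ) + |(b i : ℝ)| ≤ S :=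
    ⟨∑ i, (3 * (a i : ℝ) + |(b i : ℝ)|), fun i =>
      Finset.single_le_sum (f := fun i => 3 * (a i : ℝ) + |(b i : ℝ)|)
        (fun j _ => by positivity) (Finset.mem_univ i)⟩
  filter_upwards [hpow1.eventually_ge_atTop (max S 2), eventually_ge_atTop 2] with X hX hX2
  intro m hm
  have hX0 : (0 : ℝ) < X := by exact_mod_cast (by omega : 0 < X)
  have hX1 : (1 : ℝ) ≤ X := by exact_mod_cast (by omega : 1 ≤ X)
  have h2 : (2 : ℝ) ≤ (X : ℝ) ^ (1 / (r : ℝ)) := (le_max_right _ _).trans hX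
  have hSX : S ≤ (X : ℝ) ^ (1 / (r : ℝ)) := (le_max_left _ _).trans hX
  have h2mem : 2 ∈ pz ⌊(X : ℝ) ^ (1 / (r : ℝ))⌋₊ := by
    rw [mem_pz]
    exact ⟨Nat.le_floor (by exact_mod_cast h2), Nat.prime_two⟩
  constructor
  · intro h i
    have h3 : ∀ p : ℕ, p.Prime → (p : ℤ) ∣ (a i : ℤ) * m + b i →
        (X : ℝ) ^ (1 / (r : ℝ)) < (p : ℝ) := by
      intro p hp hd
      apply not_mem_pz hp
      intro hmem
      exact h p hmem ((ls_Q a b p m).2 ⟨i, hd⟩)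
    have hne : (a i : ℤ) * m + b i ≠ 0 := by
      intro h0
      apply h 2 h2mem
      rw [ls_Q]
      exact ⟨i, by rw [h0]; exact dvd_zero _⟩
    refine ⟨?_, h3⟩
    apply length_le _ r (Int.natAbs_ne_zero.2 hne) _ (fun p hp hd => h3 p hp (Int.natCast_dvd.2 hd))
      _ (by linarith)
    have e1 : ((X : ℝ) ^ (1 / (r : ℝ))) ^ (r + 1) = X * (X : ℝ) ^ (1 / (r : ℝ)) := by
      rw [pow_succ]
      congr 1
      rw [← Real.rpow_natCast, ← Real.rpow_mul hX0.le]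
      rw [one_div, inv_mul_cancel₀ hr0, Real.rpow_one]
    rw [e1]
    have e2 : ((((a i : ℤ) * m + b i).natAbs : ℕ) : ℝ) = |(a i : ℝ) * m + b i| := by
      rw [Nat.cast_natAbs, Int.cast_abs]
      push_cast
      rfl
    rw [e2]
    have hm' : (m : ℝ) ≤ 3 * X := by exact_mod_cast hm
    have hm0 : (0 : ℝ) ≤ m := Nat.cast_nonneg m
    have ha0 : (0 : ℝ) ≤ a i := Nat.cast_nonneg _
    have hb0 := abs_nonneg (b i : ℝ)
    calc |(a i : ℝ) * m + b i| ≤ |(a i : ℝ) * m| + |(b i : ℝ)| := abs_add_le _ _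
      _ = (a i : ℝ) * m + |(b i : ℝ)| := by rw [abs_of_nonneg (by positivity)]
      _ ≤ (a i : ℝ) * (3 * X) + |(b i : ℝ)| * X := by
          have t1 : (a i : ℝ) * m ≤ (a i : ℝ) * (3 * X) := mul_le_mul_of_nonneg_left hm' ha0
          have t2 : |(b i : ℝ)| ≤ |(b i : ℝ)| * X := le_mul_of_one_le_right hb0 hX1
          linarith
      _ = X * (3 * (a i : ℝ) + |(b i : ℝ)|) := by ring
      _ ≤ X * (X : ℝ) ^ (1 / (r : ℝ)) :=
          mul_le_mul_of_nonneg_left ((hS i).trans hSX) hX0.le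
  · intro h p hp hq
    obtain ⟨i, hi⟩ := (ls_Q a b p m).1 hq
    have h1 := (h i).2 p (mem_pz.1 hp).2 hi
    have h2 := mem_pz' (by positivity) hp
    linarith

open Classical in
/-- **The density in all windows**, linear forms. -/
theorem exact_lin [Fintype ι] [Nonempty ι] (a : ι → ℕ) (b : ι → ℤ) (ha : ∀ i, 0 < a i)
    (hab : ∀ i, IsCoprime (a i : ℤ) (b i)) (hinj : ∀ i j, a i = a j → b i = b j → i = j)
    (hadm : ∀ p : ℕ, p.Prime → ∃ m : ℕ, ∀ i, ¬ (p : ℤ) ∣ (a i : ℤ) * m + b i)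
    (hT : ∀ i j, ∀ t : ℕ, 1 ≤ t → ¬ (a i = a j ∧ b i = (a j : ℤ) * t + b j))
    (G : ℕ → ℕ → ℕ → Prop) (hG : ∀ r X m : ℕ, 1 ≤ r → 1 ≤ m → (G r X m ↔ AP a b r X m))
    (V : ℕ → ℕ → ℝ) (hV : ∀ r X : ℕ, V r X =
      ∏ p ∈ (Finset.range (⌊(X : ℝ) ^ (1 / (r : ℝ))⌋₊ + 1)).filter Nat.Prime,
      (1 - (((Finset.range p).filter
        (fun m : ℕ => ∃ i, (p : ℤ) ∣ (a i : ℤ) * m + b i)).card : ℝ) / p))
    (θ : ℝ) (hθ : 0 < θ) (ε : ℝ) (hε : 0 < ε) :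
    ∃ (K : ℝ) (r0 : ℕ), 0 < K ∧ ∀ r : ℕ, r0 ≤ r → ∀ᶠ X : ℕ in atTop, ∀ Y : ℕ, (X : ℝ) ^ θ ≤ Y → Y ≤ X →
      (((Finset.Ioc X (X + Y)).filter (fun n => ¬ Exact (G r X) (V r X) K ε X Y n)).card : ℝ) ≤
        ε * Y ∧
      (((Finset.Ioc X (X + Y)).filter (fun n => G r X n ∧
        ¬ Exact (G r X) (V r X) K ε X Y n)).card : ℝ) ≤ ε * (Y * V r X) := by
  obtain ⟨K, r0, hK, h0⟩ := exact_poly (ls a b) (ls_sys a b ha hab hinj hadm) (ls_noTr a b hT) θ hθ ε hε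
  refine ⟨K, max r0 1, hK, ?_⟩
  intro r hr
  have hr1 : 1 ≤ r := (le_max_right _ _).trans hr
  filter_upwards [h0 r ((le_max_left _ _).trans hr), sf_AP a b r hr1] with X hX hap
  intro Y hXY hYX
  have hVe : Vq (Q (ls a b)) ⌊(X : ℝ) ^ (1 / (r : ℝ))⌋₊ = V r X := by
    rw [hV, ls_V a b]
    exact Finset.prod_congr rfl fun p _ => congrArg (fun x : ℝ => 1 - x / p) (card_inst p _ _ _)
  have hs : ∀ m ∈ Finset.Ioc X (X + Y),
      (Sf (Q (ls a b)) ⌊(X : ℝ) ^ (1 / (r : ℝ))⌋₊ m ↔ G r X m) := by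
    intro m hm
    rw [mem_Ioc] at hm
    rw [hG r X m hr1 (by omega)]
    exact hap m (by omega)
  have hex : ∀ n : ℕ, (Exact (Sf (Q (ls a b)) ⌊(X : ℝ) ^ (1 / (r : ℝ))⌋₊)
      (Vq (Q (ls a b)) ⌊(X : ℝ) ^ (1 / (r : ℝ))⌋₊) K ε X Y n ↔ Exact (G r X) (V r X) K ε X Y n) := by
    intro n
    rw [hVe]
    have hC : ∀ u v : ℕ, X ≤ u → v ≤ X + Y →
        Cc (Sf (Q (ls a b)) ⌊(X : ℝ) ^ (1 / (r : ℝ))⌋₊) u v = Cc (G r X) u v := by
      intro u v hu hv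
      unfold Cc
      congr 1
      apply Finset.filter_congr
      intro m hm
      apply hs m
      rw [mem_Ioc] at hm ⊢
      omega
    unfold Exact
    constructor
    · intro h u v hu hun hnv hv hK
      rw [← hC u v hu hv]
      exact h u v hu hun hnv hv hK
    · intro h u v hu hun hnv hv hK
      rw [hC u v hu hv]
      exact h u v hu hun hnv hv hK
  obtain ⟨h1, h2⟩ := hX Y hXY hYX
  constructor
  · refine le_trans ?_ h1
    have : (Finset.Ioc X (X + Y)).filter (fun n => ¬ Exact (G r X) (V r X) K ε X Y n) ⊆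
        (Finset.Ioc X (X + Y)).filter (fun n => ¬ Exact (Sf (Q (ls a b)) ⌊(X : ℝ) ^ (1 / (r : ℝ))⌋₊)
          (Vq (Q (ls a b)) ⌊(X : ℝ) ^ (1 / (r : ℝ))⌋₊) K ε X Y n) := by
      intro n hn
      rw [mem_filter] at hn ⊢
      exact ⟨hn.1, fun h => hn.2 ((hex n).1 h)⟩
    exact_mod_cast card_le_card this
  · rw [← hVe]
    refine le_trans ?_ h2
    rw [hVe]
    have : (Finset.Ioc X (X + Y)).filter (fun n => G r X n ∧ ¬ Exact (G r X) (V r X) K ε X Y n) ⊆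
        (Finset.Ioc X (X + Y)).filter (fun n => Sf (Q (ls a b)) ⌊(X : ℝ) ^ (1 / (r : ℝ))⌋₊ n ∧
          ¬ Exact (Sf (Q (ls a b)) ⌊(X : ℝ) ^ (1 / (r : ℝ))⌋₊)
          (V r X) K ε X Y n) := by
      intro n hn
      rw [mem_filter] at hn ⊢
      refine ⟨hn.1, (hs n hn.1).2 hn.2.1, fun h => hn.2.2 ?_⟩
      have := (hex n).1
      rw [hVe] at this
      exact this h
    exact_mod_cast card_le_card this

/-- short windows -/
lemma T_le [Fintype ι] [Nonempty ι] (f : ι → ℤ[X]) (hf : Sys f) (r : ℕ) (hr : 2 ≤ r) (x0 : ℝ) :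
    ∀ᶠ X : ℕ in atTop, ∀ T : ℕ, T * Vq (Q f) ⌊(X : ℝ) ^ (1 / (r : ℝ))⌋₊ ≤ x0 → T ≤ X := by
  obtain ⟨v, Cv, hv, hCv, hV⟩ := V_bounds f hf
  obtain ⟨k, hk⟩ : ∃ k, k = Fintype.card ι := ⟨_, rfl⟩
  rw [← hk] at hV
  have hrr : (2 : ℝ) ≤ r := by exact_mod_cast hr
  have hpow2 : Tendsto (fun X : ℕ => (X : ℝ) ^ (1 / (2 * r : ℝ))) atTop atTop :=
    (tendsto_rpow_atTop (by positivity)).comp tendsto_natCast_atTop_atTop
  filter_upwards [hpow2.eventually_ge_atTop 3, eventually_ge_atTop 16,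
    logpow_rpow k ((|x0| + 1) / v) 1 (by positivity) one_pos] with X hX1 hX16 hX3
  intro T hT
  obtain ⟨hy1, hy2, hy3, hy4⟩ := level_low r hr X (by omega) (by linarith)
  obtain ⟨y, hy⟩ : ∃ y, y = ⌊(X : ℝ) ^ (1 / (r : ℝ))⌋₊ := ⟨_, rfl⟩
  rw [← hy] at hy1 hy2 hy3 hy4 hT
  have hy3' : 3 ≤ y := by
    have : (3 : ℝ) ≤ y := by linarith
    exact_mod_cast this
  obtain ⟨hVlo, -⟩ := hV y hy3'
  have hlogy : 0 < Real.log y := Real.log_pos (by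
    have : (3 : ℝ) ≤ y := by exact_mod_cast hy3'
    linarith)
  have hT0 : (0 : ℝ) ≤ T := Nat.cast_nonneg _
  have h1 : (T : ℝ) * (v / Real.log y ^ k) ≤ |x0| + 1 := by
    have := mul_le_mul_of_nonneg_left hVlo hT0
    have h2 := le_abs_self x0
    linarith
  have h2 : (T : ℝ) ≤ (|x0| + 1) / v * Real.log X ^ k := by
    have h3 : (T : ℝ) * v ≤ (|x0| + 1) * Real.log y ^ k := by
      calc (T : ℝ) * v = T * (v / Real.log y ^ k) * Real.log y ^ k := by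
            field_simp
        _ ≤ (|x0| + 1) * Real.log y ^ k := mul_le_mul_of_nonneg_right h1 (by positivity)
    rw [div_mul_eq_mul_div, le_div_iff₀ hv]
    refine h3.trans ?_
    gcongr
  rw [Real.rpow_one] at hX3
  exact_mod_cast h2.trans hX3

open Classical in
/-- **The Poisson law**, linear forms. -/
theorem poisson_lin [Fintype ι] [Nonempty ι] (a : ι → ℕ) (b : ι → ℤ) (ha : ∀ i, 0 < a i)
    (hab : ∀ i, IsCoprime (a i : ℤ) (b i)) (hinj : ∀ i j, a i = a j → b i = b j → i = j)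
    (hadm : ∀ p : ℕ, p.Prime → ∃ m : ℕ, ∀ i, ¬ (p : ℤ) ∣ (a i : ℤ) * m + b i)
    (hT : ∀ i j, ∀ t : ℕ, 1 ≤ t → ¬ (a i = a j ∧ b i = (a j : ℤ) * t + b j))
    (G : ℕ → ℕ → ℕ → Prop) (hG : ∀ r X m : ℕ, 1 ≤ r → 1 ≤ m → (G r X m ↔ AP a b r X m))
    (V : ℕ → ℕ → ℝ) (hV : ∀ r X : ℕ, V r X =
      ∏ p ∈ (Finset.range (⌊(X : ℝ) ^ (1 / (r : ℝ))⌋₊ + 1)).filter Nat.Prime,
      (1 - (((Finset.range p).filter
        (fun m : ℕ => ∃ i, (p : ℤ) ∣ (a i : ℤ) * m + b i)).card : ℝ) / p))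
    (θ : ℝ) (hθ : 0 < θ) (x0 ε : ℝ) (hε : 0 < ε) :
    ∃ r0 : ℕ, ∀ r : ℕ, r0 ≤ r → ∀ᶠ X : ℕ in atTop, ∀ Y : ℕ, (X : ℝ) ^ θ ≤ Y → Y ≤ X →
      ∀ T : ℕ, T * V r X ≤ x0 → ∀ A : Finset ℕ,
        |(((Finset.Ioc X (X + Y)).filter
            (fun n => ((Finset.Ioc n (n + T)).filter (fun m => G r X m)).card ∈ A)).card : ℝ) -
          Y * ∑ j ∈ A, Real.exp (-(T * V r X)) * (T * V r X) ^ j / j.factorial| ≤ ε * Y := by
  obtain ⟨r0, h0⟩ := poisson_all (ls a b) (ls_sys a b ha hab hinj hadm) (ls_noTr a b hT) θ hθ x0 ε hε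
  refine ⟨max r0 2, ?_⟩
  intro r hr
  have hr2 : 2 ≤ r := (le_max_right _ _).trans hr
  have hr1 : 1 ≤ r := by omega
  filter_upwards [h0 r ((le_max_left _ _).trans hr), sf_AP a b r hr1,
    T_le (ls a b) (ls_sys a b ha hab hinj hadm) r hr2 x0] with X hX hap hTX
  intro Y hXY hYX T hT A
  have hVe : Vq (Q (ls a b)) ⌊(X : ℝ) ^ (1 / (r : ℝ))⌋₊ = V r X := by
    rw [hV, ls_V a b]
    exact Finset.prod_congr rfl fun p _ => congrArg (fun x : ℝ => 1 - x / p) (card_inst p _ _ _)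
  rw [← hVe] at hT ⊢
  have hTX' : T ≤ X := hTX T hT
  have h1 := hX Y hXY T hT A
  have hN : ∀ n ∈ Finset.Ioc X (X + Y),
      (Np (ls a b) ⌊(X : ℝ) ^ (1 / (r : ℝ))⌋₊ T n ∈ A ↔
        ((Finset.Ioc n (n + T)).filter (fun m => G r X m)).card ∈ A) := by
    intro n hn
    rw [mem_Ioc] at hn
    have : Np (ls a b) ⌊(X : ℝ) ^ (1 / (r : ℝ))⌋₊ T n =
        ((Finset.Ioc n (n + T)).filter (fun m => G r X m)).card := by
      unfold Np
      congr 1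
      apply Finset.filter_congr
      intro m hm
      rw [mem_Ioc] at hm
      rw [hG r X m hr1 (by omega)]
      exact hap m (by omega)
    rw [this]
  rw [Finset.filter_congr hN] at h1
  exact h1

end Pool.Agent.Y862.LS
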