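import Pool.Agent.TH899.UG.TD4
import Pool.Agent.Y862.Ev

/-!
# A third of the times are gaps between isolated primes of orbits, below every large `x`
-/

set_option autoImplicit false

namespace Pool.Agent.Y862

open Finset Filter Pool.Agent.H447R3.IT
open Pool.Agent.W218.OG (Pr pr_nat)
open Pool.Agent.TH899.UG Pool.Agent.TH899.UG.TD

/-- the number of primes up to `x` in `PS` -/
noncomputable def cPS (D : ℕ) (e : ℤ) (m R : ℕ) (x : ℝ) (k : ℕ) : ℕ :=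
  {p : ℕ | (p : ℝ) ≤ x ∧ p ∈ PS D e m R k}.ncard

open Classical in
theorem thirdEv (D : ℕ) (e : ℤ) (m : ℕ) (hD : 2 ≤ D) (he : e ≠ 0) (hcop : IsCoprime e (D : ℤ))
    (hm0 : 0 < m) (hm : ∀ p : ℕ, p.Prime → p ∣ D - 1 → (p : ℤ) ∣ e * m) (R : ℕ) (ε : ℝ)
    (hε : 0 < ε) : ∃ C : ℕ, ∀ T : ℕ, C ≤ T → ∀ η : ℝ, 0 < η → ∀ᶠ x : ℝ in atTop,
      (1 / 3 - ε) * (T : ℝ) ≤
        (((Icc 1 T).filter (fun k : ℕ => x ^ (1 - η) ≤ (cPS D e m R x k : ℝ))).card : ℝ) := by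
  obtain ⟨K, hK, HC⟩ := consecEv D e m hD he hcop hm0 hm R
  obtain ⟨K', hK'⟩ : ∃ K', K' = (2 * R + 1) * Fintype.card (Fin 4 × Fin K) := ⟨_, rfl⟩
  obtain ⟨C₁, E, hC₁, HB⟩ := box_pow K' 4
  obtain ⟨d, hd⟩ : ∃ d, d = min ε 1 := ⟨_, rfl⟩
  have hd0 : 0 < d := by rw [hd]; positivity
  have hd1 : d ≤ 1 := by rw [hd]; exact min_le_right _ _
  have hdε : d ≤ ε := by rw [hd]; exact min_le_left _ _
  obtain ⟨ε₂, hε₂⟩ : ∃ ε₂ : ℝ, ε₂ = (d / 16) ^ 3 / 625 := ⟨_, rfl⟩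
  have hε₂0 : 0 < ε₂ := by rw [hε₂]; positivity
  have hε₂1 : ε₂ ≤ 1 := by
    have h1 : (d / 16) ^ 3 ≤ 1 := pow_le_one₀ (by positivity) (by linarith)
    rw [hε₂]; linarith
  obtain ⟨R₁, hR₁⟩ := exists_nat_ge (C₁ / ε₂ ^ E)
  obtain ⟨R₂, hR₂⟩ := exists_nat_ge (16 / d)
  refine ⟨R₁ + R₂ + 10, fun T hCT η hη => ?_⟩
  have hall : ∀ᶠ x : ℝ in atTop, ∀ h : Fin 4 → Fin K → Fin (5 * T),
      (∀ x y : Fin 4 × Fin K, x ≠ y → (h x.1 x.2 : ℕ) + R < h y.1 y.2 ∨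
        (h y.1 y.2 : ℕ) + R < h x.1 x.2) →
      ∃ g g' i i', g ≠ g' ∧ (h g i : ℕ) < h g' i' ∧
        x ^ (1 - η) ≤ (cPS D e m R x ((h g' i' : ℕ) - h g i) : ℝ) := by
    rw [eventually_all]
    intro h
    by_cases hs : ∀ x y : Fin 4 × Fin K, x ≠ y → (h x.1 x.2 : ℕ) + R < h y.1 y.2 ∨
        (h y.1 y.2 : ℕ) + R < h x.1 x.2
    · filter_upwards [HC (fun g i => (h g i : ℕ)) hs η hη] with x hx _
      exact hx
    · exact Eventually.of_forall fun x hx => absurd hx hs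
  filter_upwards [hall] with x hx
  by_contra hcon
  push Not at hcon
  obtain ⟨B, hBdef⟩ : ∃ B, B = (Icc 1 T).filter
      (fun k : ℕ => ¬ x ^ (1 - η) ≤ (cPS D e m R x k : ℝ)) := ⟨_, rfl⟩
  have hsum : ((Icc 1 T).filter (fun k : ℕ => x ^ (1 - η) ≤ (cPS D e m R x k : ℝ))).card +
      B.card = T := by
    rw [hBdef, card_filter_add_card_filter_not, Nat.card_Icc, Nat.add_sub_cancel]
  have hBI : B ⊆ Icc 1 T := by rw [hBdef]; exact filter_subset _ _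
  have hsumr : ((((Icc 1 T).filter (fun k : ℕ => x ^ (1 - η) ≤ (cPS D e m R x k : ℝ))).card : ℕ) : ℝ) +
      (B.card : ℝ) = T := by exact_mod_cast hsum
  have hT0 : (0 : ℝ) ≤ T := Nat.cast_nonneg _
  have hBr : (2 / 3 + d) * (T : ℝ) ≤ B.card := by nlinarith
  have hT1 : 1 ≤ T := by omega
  have hT1r : (1 : ℝ) ≤ T := by exact_mod_cast hT1
  have hR1T : C₁ / ε₂ ^ E ≤ (T : ℝ) := hR₁.trans (by exact_mod_cast (by omega : R₁ ≤ T))
  have hR2T : 16 / d ≤ (T : ℝ) := hR₂.trans (by exact_mod_cast (by omega : R₂ ≤ T))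
  have hdT : 16 ≤ d * T := by
    rw [div_le_iff₀ hd0] at hR2T
    linarith
  obtain ⟨S, hS⟩ : ∃ S, S = ⌊d * T / 8⌋₊ := ⟨_, rfl⟩
  have hSu : (S : ℝ) ≤ d * T / 8 := by rw [hS]; exact Nat.floor_le (by positivity)
  have hSl : d * T / 16 ≤ (S : ℝ) := by
    have h1 : d * T / 8 < (S : ℝ) + 1 := by rw [hS]; exact Nat.lt_floor_add_one _
    linarith
  have hS1 : 1 ≤ S := by
    have h1 : (1 : ℝ) ≤ S := by linarith
    exact_mod_cast h1
  obtain ⟨c, hc, hq⟩ := quad T S S hS1 B hBI (by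
    have h1 : (2 * T + 9 * S + 3 * S + 20 : ℝ) ≤ 3 * B.card := by nlinarith
    exact_mod_cast h1)
  have hcount : ε₂ * ∏ i : Fin 4, (((fun _ : Fin 4 => range (5 * T)) i).card : ℝ) ≤
      (((Fintype.piFinset (fun _ : Fin 4 => range (5 * T))).filter (fun f => PP B c f)).card : ℝ) := by
    have h1 : ∏ i : Fin 4, (((fun _ : Fin 4 => range (5 * T)) i).card : ℝ) = (5 * T) ^ 4 := by
      simp only [card_range, prod_const, card_univ, Fintype.card_fin]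
      push_cast
      ring
    rw [h1]
    have h2 : (T : ℝ) * (QQ T B c).card ≤
      (((Fintype.piFinset (fun _ : Fin 4 => range (5 * T))).filter (fun f => PP B c f)).card : ℝ) := by
      exact_mod_cast emb T c B
    refine le_trans ?_ h2
    have h3 : (S : ℝ) * (S * S) ≤ (QQ T B c).card := by exact_mod_cast hq
    have h4 : (d * T / 16) ^ 3 ≤ (S : ℝ) ^ 3 := by gcongr
    have h5 : (S : ℝ) ^ 3 = S * (S * S) := by ring
    have h6 : ε₂ * (5 * (T : ℝ)) ^ 4 = T * (d * T / 16) ^ 3 := by rw [hε₂]; ring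
    rw [h6]
    exact mul_le_mul_of_nonneg_left (by linarith) hT0
  obtain ⟨Af, hA1, hA2⟩ := HB ε₂ hε₂0 hε₂1 ℕ (fun _ : Fin 4 => range (5 * T)) (fun i => by
    simp only [card_range]
    push_cast
    linarith) _ (filter_subset _ _) hcount
  have hlt : ∀ g g' : Fin 4, g < g' → ∀ i j, Af g i < Af g' j ∧ Af g' j - Af g i ∈ B := by
    intro g g' hgg i j
    have h1 := (mem_filter.1 (hA2 (Function.update (fun _ => i) g' j))).2.1 g g' hgg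
    simp only [Function.update_self, Function.update_of_ne hgg.ne] at h1
    exact h1
  have hrng : ∀ g i, Af g i < 5 * T := fun g i => by
    have h1 := Fintype.mem_piFinset.1 (mem_filter.1 (hA2 (fun _ => i))).1 g
    exact mem_range.1 h1
  obtain ⟨H, hH1, hH2⟩ := spaced R (fun z : Fin 4 × Fin K => univ.image (Af z.1)) (fun z => by
    rw [card_image_of_injective _ (hA1 z.1), card_univ, Fintype.card_fin, hK'])
  have hHa : ∀ z, ∃ a, Af z.1 a = H z := fun z => by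
    obtain ⟨a, -, ha⟩ := mem_image.1 (hH1 z)
    exact ⟨a, ha⟩
  choose α hα using hHa
  have hHlt : ∀ z, H z < 5 * T := fun z => by rw [← hα]; exact hrng _ _
  obtain ⟨g, g', i, i', hne, hlt', hcnt⟩ := hx (fun g i => ⟨H (g, i), hHlt (g, i)⟩)
    (fun x y hxy => hH2 x y hxy)
  have hlt'' : H (g, i) < H (g', i') := hlt'
  have hcnt' : x ^ (1 - η) ≤ (cPS D e m R x (H (g', i') - H (g, i)) : ℝ) := hcnt
  rcases lt_or_gt_of_ne hne with hg | hg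
  · have h1 := (hlt g g' hg (α (g, i)) (α (g', i'))).2
    rw [hα (g, i), hα (g', i'), hBdef, mem_filter] at h1
    exact h1.2 hcnt'
  · have h1 := (hlt g' g hg (α (g', i')) (α (g, i))).1
    rw [hα (g, i), hα (g', i')] at h1
    omega

/-- the conclusion for an orbit `a` of natural numbers -/
theorem transferEv (D : ℕ) (e : ℤ) (m : ℕ) (hD : 2 ≤ D) (he : e ≠ 0) (hcop : IsCoprime e (D : ℤ))
    (hm0 : 0 < m) (hm : ∀ p : ℕ, p.Prime → p ∣ D - 1 → (p : ℤ) ∣ e * m) (a : ℕ → ℕ → ℕ)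
    (ha : ∀ p j : ℕ, p.Prime → ((a p j : ℕ) : ℤ) = (S D e)^[j] (p : ℤ)) (R : ℕ) (ε : ℝ)
    (hε : 0 < ε) : ∃ L : ℕ, ∀ T : ℕ, L ≤ T → ∀ η : ℝ, 0 < η → ∀ᶠ x : ℝ in atTop,
      (1 / 3 - ε) * (T : ℝ) ≤ ({k : ℕ | 1 ≤ k ∧ k ≤ T ∧
        x ^ (1 - η) ≤ ({p : ℕ | (p : ℝ) ≤ x ∧ p.Prime ∧ (a p (m * k)).Prime ∧
          (∀ l, 0 < l → l < m * k → ¬ (a p l).Prime) ∧
          ∀ l, 0 < l → l ≤ R → ¬ (a p (m * k + l)).Prime ∧
            ∀ q : ℕ, q.Prime → a q l ≠ p}.ncard : ℝ)}.ncard : ℝ) := by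
  classical
  obtain ⟨L, hL⟩ := thirdEv D e m hD he hcop hm0 hm R ε hε
  have hpr : ∀ p j : ℕ, p.Prime → (Pr ((S D e)^[j] (p : ℤ)) ↔ (a p j).Prime) := by
    intro p j hp
    rw [← ha p j hp, pr_nat]
  refine ⟨L, fun T hT η hη => ?_⟩
  filter_upwards [hL T hT η hη] with x hx
  refine hx.trans ?_
  rw [Nat.cast_le, ← Set.ncard_coe_finset]
  refine Set.ncard_le_ncard ?_ ((Set.finite_Icc 1 T).subset fun k hk => ⟨hk.1, hk.2.1⟩)
  intro k hk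
  rw [mem_coe, mem_filter, mem_Icc] at hk
  obtain ⟨⟨hk1, hk2⟩, hk3⟩ := hk
  refine ⟨hk1, hk2, hk3.trans ?_⟩
  rw [Nat.cast_le]
  refine Set.ncard_le_ncard ?_ ((Set.finite_le_nat ⌊x⌋₊).subset fun p hp => Nat.le_floor hp.1)
  rintro p ⟨hpx, hp, hp1, hp2, hp3⟩
  refine ⟨hpx, hp, (hpr p _ hp).1 hp1, fun l h0 h1 h2 => hp2 l h0 h1 ((hpr p _ hp).2 h2),
    fun l hl0 hl1 => ?_⟩
  obtain ⟨k1, k2⟩ := hp3 l hl0 hl1
  refine ⟨fun h => k1 ((hpr p _ hp).2 h), fun q hq h => ?_⟩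
  refine k2 (q : ℤ) ?_ ?_
  · exact ⟨by exact_mod_cast hq.pos, Nat.prime_iff_prime_int.1 hq⟩
  · rw [← ha q l hq, h]

end Pool.Agent.Y862
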