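import Pool.Agent.TH899.UG.ExW

/-!
# The first three iterates of `x ↦ 2 x + t`, up to a bounded error, uniformly in `t`
-/

set_option autoImplicit false

namespace Pool.Agent.Y862

open Finset Filter Pool.Agent.TH899.UG

/-- some residue is avoided -/
theorem avoid (p : ℕ) (hp : p.Prime) {ι : Type*} [Fintype ι] (hι : Fintype.card ι < p)
    (a b : ι → ℤ) (ha : ∀ i, ¬ (p : ℤ) ∣ a i) : ∃ n : ℤ, ∀ i, ¬ (p : ℤ) ∣ a i * n + b i := by
  classical
  haveI : Fact p.Prime := ⟨hp⟩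
  obtain ⟨r, hr⟩ : ∃ r : ZMod p, r ∉ univ.image fun i : ι => -(b i : ZMod p) / (a i : ZMod p) := by
    by_contra hcon
    push Not at hcon
    have h1 : (univ : Finset (ZMod p)) ⊆ univ.image fun i : ι => -(b i : ZMod p) / (a i : ZMod p) :=
      fun r _ => hcon r
    have h2 := (card_le_card h1).trans card_image_le
    rw [card_univ, card_univ, ZMod.card] at h2
    omega
  refine ⟨r.val, fun i hd => hr ?_⟩
  rw [mem_image]
  refine ⟨i, mem_univ _, ?_⟩
  have h1 := (ZMod.intCast_zmod_eq_zero_iff_dvd _ p).2 hd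
  push_cast at h1
  rw [ZMod.natCast_zmod_val] at h1
  have h2 : (a i : ZMod p) ≠ 0 := fun h => ha i ((ZMod.intCast_zmod_eq_zero_iff_dvd _ p).1 h)
  rw [div_eq_iff h2]
  linear_combination -h1

open Classical in
theorem three : ∃ C : ℕ, ∀ η : ℝ, 0 < η → ∀ᶠ N : ℕ in atTop, ∀ t : ℤ, |t| ≤ N →
    ∃ (i : ℕ) (h : ℤ), 1 ≤ i ∧ i ≤ 3 ∧ |h| ≤ C ∧
      (N : ℝ) ^ (1 - η) ≤ (((Icc N (C * N)).filter (fun p : ℕ => p.Prime ∧
        (2 ^ i * (p : ℤ) + (2 ^ i - 1) * t + h).toNat.Prime)).card : ℝ) := by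
  obtain ⟨c₀, hc₀, hc₁, hE⟩ := NW.exactW
  obtain ⟨K, hK, hE⟩ := hE (1 / 8) (1 / 4) le_rfl (by norm_num) le_rfl 4 1 (by norm_num)
    (by push_cast; linarith)
  obtain ⟨P, hP⟩ : ∃ P : ℕ, P = (4 * K + 4).factorial := ⟨_, rfl⟩
  have hP8 : 8 ≤ P := by
    rw [hP]
    exact (show 8 ≤ (4 : ℕ).factorial by decide).trans (Nat.factorial_le (by omega))
  have hPz : (0 : ℤ) < P := by exact_mod_cast (by omega : 0 < P)
  obtain ⟨C, hC⟩ : ∃ C : ℕ, C = 16 * (P * (K + 1)) + 16 * P + 7 := ⟨_, rfl⟩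
  refine ⟨C, fun η hη => ?_⟩
  have ht8 : Tendsto (fun N : ℕ => 8 * N) atTop atTop :=
    tendsto_atTop.2 fun b => by
      filter_upwards [eventually_ge_atTop b] with x hx
      omega
  filter_upwards [ht8.eventually (hE (8 * P) (min η 1) (by positivity)),
    eventually_ge_atTop (40 * (P * (K + 1)) + 10)] with N hN hNl t ht
  -- the shifts
  obtain ⟨s, hs⟩ : ∃ s : Fin 4 → Fin K → ℤ, ∀ g i, s g i =
      (1 - (2 ^ (g : ℕ) - 1) * t) % P + P * ((i : ℕ) : ℤ) := ⟨_, fun _ _ => rfl⟩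
  have hs0 : ∀ g i, 0 ≤ s g i ∧ s g i < P * (K + 1) := by
    intro g i
    rw [hs]
    have h1 := Int.emod_nonneg (1 - (2 ^ (g : ℕ) - 1) * t) hPz.ne'
    have h2 := Int.emod_lt_of_pos (1 - (2 ^ (g : ℕ) - 1) * t) hPz
    have h3 : (((i : ℕ) : ℤ)) + 1 ≤ K := by exact_mod_cast i.2
    have h4 : (0 : ℤ) ≤ ((i : ℕ) : ℤ) := Int.natCast_nonneg _
    constructor
    · positivity
    · nlinarith
  have hg3 : ∀ g : Fin 4, (2 : ℤ) ^ (g : ℕ) ≤ 8 := by
    intro g
    have : (g : ℕ) ≤ 3 := by omega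
    calc (2 : ℤ) ^ (g : ℕ) ≤ 2 ^ 3 := pow_le_pow_right₀ (by norm_num) this
      _ = 8 := by norm_num
  have hg1 : ∀ g : Fin 4, (1 : ℤ) ≤ (2 : ℤ) ^ (g : ℕ) := fun g => one_le_pow₀ (by norm_num)
  have hNz : (40 * (P * (K + 1)) + 10 : ℤ) ≤ N := by exact_mod_cast hNl
  have hPK : (0 : ℤ) < P * (K + 1) := by positivity
  have hb : ∀ (g : Fin 4) (i : Fin K), |(2 ^ (g : ℕ) - 1) * t + s g i| ≤ 7 * N + P * (K + 1) := by
    intro g i
    obtain ⟨h1, h2⟩ := hs0 g i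
    have h3 : |(2 ^ (g : ℕ) - 1) * t| ≤ 7 * N := by
      rw [abs_mul]
      have h4 : |(2 : ℤ) ^ (g : ℕ) - 1| ≤ 7 := by
        rw [abs_le]
        have := hg3 g
        have := hg1 g
        constructor <;> linarith
      exact mul_le_mul h4 ht (abs_nonneg _) (by norm_num)
    calc |(2 ^ (g : ℕ) - 1) * t + s g i| ≤ |(2 ^ (g : ℕ) - 1) * t| + |s g i| := abs_add_le _ _
      _ ≤ 7 * N + P * (K + 1) := by
          rw [abs_of_nonneg h1]
          linarith
  obtain ⟨F, σ, hF, hcnt⟩ := hN (fun g _ => 2 ^ (g : ℕ) * P)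
    (fun g i => (2 ^ (g : ℕ) - 1) * t + s g i)
    (fun g _ => by positivity)
    (fun g _ => by
      rw [abs_of_pos (by positivity)]
      push_cast
      exact mul_le_mul_of_nonneg_right (hg3 g) hPz.le)
    (fun g i => by
      have h1 := hb g i
      push_cast
      linarith)
    (fun g i y hy1 _ => by
      have h1 := (abs_le.1 (hb g i)).1
      have h2 : (-(7 * (N : ℝ) + P * (K + 1))) ≤ (((2 ^ (g : ℕ) - 1) * t + s g i : ℤ) : ℝ) := by
        exact_mod_cast h1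
      have h3 : (0 : ℝ) ≤ N := Nat.cast_nonneg _
      have h5 : (40 * ((P : ℝ) * (K + 1)) + 10) ≤ N := by exact_mod_cast hNl
      have h6 : (0 : ℝ) ≤ (P : ℝ) * (K + 1) := by positivity
      push_cast at hy1 ⊢ h2
      have hy0 : 0 ≤ y := by linarith
      have h7 : ∀ (z : ℝ), (16 : ℝ) ≤ z → 16 * y ≤ z * y := fun z hz =>
        mul_le_mul_of_nonneg_right hz hy0
      have hPr : (8 : ℝ) ≤ P := by exact_mod_cast hP8
      by_cases hg : (g : ℕ) = 0
      · have e0 : ((2 : ℝ) ^ (g : ℕ) - 1) * t = 0 := by rw [hg]; norm_num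
        have h8 := (hs0 g i).1
        have h9 : (0 : ℝ) ≤ (s g i : ℝ) := by exact_mod_cast h8
        rw [e0, hg]
        nlinarith
      · have h8 : (2 : ℝ) ≤ 2 ^ (g : ℕ) := by
          calc (2 : ℝ) = 2 ^ 1 := by norm_num
            _ ≤ 2 ^ (g : ℕ) := pow_le_pow_right₀ (by norm_num) (by omega)
        have h9 : (16 : ℝ) ≤ 2 ^ (g : ℕ) * P := by nlinarith
        have h10 := h7 _ h9
        linarith)
    (by
      rintro ⟨g, i⟩ ⟨g', i'⟩ h
      simp only [Prod.mk.injEq] at h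
      obtain ⟨h1, h2⟩ := h
      have h3 := mul_right_cancel₀ hPz.ne' h1
      have h4 : (g : ℕ) = (g' : ℕ) := by
        have : (2 : ℕ) ^ (g : ℕ) = 2 ^ (g' : ℕ) := by exact_mod_cast h3
        exact Nat.pow_right_injective le_rfl this
      have h5 : g = g' := Fin.ext h4
      subst h5
      rw [add_right_inj, hs, hs, add_right_inj] at h2
      have h6 := mul_left_cancel₀ hPz.ne' h2
      have h7 : (i : ℕ) = (i' : ℕ) := by exact_mod_cast h6
      rw [Fin.ext h7])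
    (by
      intro p hp
      rcases le_or_gt p (4 * K + 4) with hpK | hpK
      · have hpP : (p : ℤ) ∣ P := by
          rw [hP]
          exact_mod_cast Nat.dvd_factorial hp.pos hpK
        refine ⟨0, fun g i hd => ?_⟩
        have h1 : (p : ℤ) ∣ 1 := by
          have h2 : (2 ^ (g : ℕ) * (P : ℤ)) * 0 + ((2 ^ (g : ℕ) - 1) * t + s g i) =
              1 + P * (((i : ℕ) : ℤ) - (1 - (2 ^ (g : ℕ) - 1) * t) / P) := by
            rw [hs]
            have h3 := Int.emod_add_mul_ediv (1 - (2 ^ (g : ℕ) - 1) * t) P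
            linear_combination h3
          rw [h2] at hd
          exact (Int.dvd_add_left (hpP.mul_right _)).1 hd
        have h2 : (p : ℤ) ∣ ((1 : ℕ) : ℤ) := by exact_mod_cast h1
        rw [Int.natCast_dvd_natCast] at h2
        exact hp.one_lt.ne' (Nat.dvd_one.1 h2)
      · obtain ⟨n, hn⟩ := avoid p hp (ι := Fin 4 × Fin K) (by
            rw [Fintype.card_prod, Fintype.card_fin, Fintype.card_fin]; omega)
          (fun x => 2 ^ (x.1 : ℕ) * (P : ℤ)) (fun x => (2 ^ (x.1 : ℕ) - 1) * t + s x.1 x.2) (by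
            intro x hd
            have h1 : p ∣ 2 ^ (x.1 : ℕ) * P := by exact_mod_cast hd
            rcases (Nat.Prime.dvd_mul hp).1 h1 with h2 | h2
            · have h3 := hp.dvd_of_dvd_pow h2
              have := Nat.le_of_dvd (by norm_num) h3
              omega
            · rw [hP] at h2
              have := (Nat.Prime.dvd_factorial hp).1 h2
              omega)
        exact ⟨n, fun g i => hn (g, i)⟩)
  obtain ⟨g₁, hg₁, g₂, hg₂, hg12⟩ := one_lt_card.1 (by omega : 1 < F.card)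
  obtain ⟨g, hg, g', hg', hlt⟩ : ∃ g ∈ F, ∃ g' ∈ F, g < g' := by
    rcases lt_or_gt_of_ne hg12 with h | h
    · exact ⟨g₁, hg₁, g₂, hg₂, h⟩
    · exact ⟨g₂, hg₂, g₁, hg₁, h⟩
  have hlt' : (g : ℕ) < (g' : ℕ) := hlt
  obtain ⟨i, hi⟩ : ∃ i : ℕ, (g' : ℕ) = g + i := ⟨g' - g, by omega⟩
  have hi1 : 1 ≤ i := by omega
  have hi3 : i ≤ 3 := by omega
  obtain ⟨h, hh⟩ : ∃ h : ℤ, h = s g' (σ g') - 2 ^ i * s g (σ g) := ⟨_, rfl⟩
  have h2i : (2 : ℤ) ^ i ≤ 8 := by
    calc (2 : ℤ) ^ i ≤ 2 ^ 3 := pow_le_pow_right₀ (by norm_num) hi3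
      _ = 8 := by norm_num
  have h2i0 : (0 : ℤ) < (2 : ℤ) ^ i := by positivity
  have hCz : (C : ℤ) = 16 * (P * (K + 1)) + 16 * P + 7 := by rw [hC]; push_cast; ring
  refine ⟨i, h, hi1, hi3, ?_, ?_⟩
  · obtain ⟨a1, a2⟩ := hs0 g (σ g)
    obtain ⟨b1, b2⟩ := hs0 g' (σ g')
    rw [hh, hCz, abs_le]
    have h3 : 2 ^ i * s g (σ g) ≤ 8 * (P * (K + 1)) :=
      mul_le_mul h2i a2.le a1 (by norm_num)
    have h4 : 0 ≤ 2 ^ i * s g (σ g) := mul_nonneg h2i0.le a1
    constructor <;> linarith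
  -- the counting
  have hN1 : (1 : ℝ) ≤ N := by exact_mod_cast (by omega : 1 ≤ N)
  have hpow : (N : ℝ) ^ (1 - η) ≤ ((8 * N : ℕ) : ℝ) ^ (1 - min η 1) := by
    have h5 : (N : ℝ) ^ (1 - η) ≤ (N : ℝ) ^ (1 - min η 1) :=
      Real.rpow_le_rpow_of_exponent_le hN1 (by linarith [min_le_left η 1])
    have h6 : (N : ℝ) ^ (1 - min η 1) ≤ ((8 * N : ℕ) : ℝ) ^ (1 - min η 1) :=
      Real.rpow_le_rpow (by linarith) (by push_cast; linarith) (by linarith [min_le_right η 1])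
    exact h5.trans h6
  refine hpow.trans (hcnt.trans ?_)
  rw [Nat.cast_le]
  refine card_le_card_of_injOn
    (fun n => (2 ^ (g : ℕ) * P * (n : ℤ) + ((2 ^ (g : ℕ) - 1) * t + s g (σ g))).toNat) ?_ ?_
  · intro n hn
    obtain ⟨h4, h5, h6, h7⟩ := mem_filter.1 (mem_coe.1 hn)
    have k1 := h7 g hg
    have k2 := h7 g' hg'
    have hpos : ∀ z : ℤ, z.toNat.Prime → 0 < z := by
      intro z hz
      by_contra h3
      rw [Int.toNat_of_nonpos (not_lt.1 h3)] at hz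
      exact Nat.not_prime_zero hz
    have k3 := hpos _ k1
    have hNn : (N : ℤ) ≤ n := by
      have : (N : ℝ) ≤ n := by push_cast at h5; linarith
      exact_mod_cast this
    have hnN : (n : ℤ) ≤ 2 * N := by
      have : (n : ℝ) ≤ 2 * N := by push_cast at h6; linarith
      exact_mod_cast this
    have habs := abs_le.1 (hb g (σ g))
    rw [mem_coe, mem_filter, mem_Icc]
    beta_reduce
    obtain ⟨p, hp⟩ : ∃ p : ℕ, p = (2 ^ (g : ℕ) * P * (n : ℤ) +
      ((2 ^ (g : ℕ) - 1) * t + s g (σ g))).toNat := ⟨_, rfl⟩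
    have hpz : (p : ℤ) = 2 ^ (g : ℕ) * P * (n : ℤ) + ((2 ^ (g : ℕ) - 1) * t + s g (σ g)) := by
      rw [hp]; exact Int.toNat_of_nonneg k3.le
    have hN0 : (0 : ℤ) ≤ N := Int.natCast_nonneg _
    refine ⟨⟨?_, ?_⟩, ?_, ?_⟩
    · -- lower bound
      rw [← hp]
      have : (N : ℤ) ≤ p := by
        rw [hpz]
        by_cases hg0 : (g : ℕ) = 0
        · have e0 : ((2 : ℤ) ^ (g : ℕ) - 1) * t = 0 := by rw [hg0]; norm_num
          have h8 := (hs0 g (σ g)).1
          rw [e0, hg0]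
          have hP8z : (8 : ℤ) ≤ P := by exact_mod_cast hP8
          nlinarith
        · have h8 : (2 : ℤ) ≤ 2 ^ (g : ℕ) := by
            calc (2 : ℤ) = 2 ^ 1 := by norm_num
              _ ≤ 2 ^ (g : ℕ) := pow_le_pow_right₀ (by norm_num) (by omega)
          have hP8z : (8 : ℤ) ≤ P := by exact_mod_cast hP8
          have h9 : (16 : ℤ) ≤ 2 ^ (g : ℕ) * P := by nlinarith
          have h10 : 16 * (n : ℤ) ≤ 2 ^ (g : ℕ) * P * n :=
            mul_le_mul_of_nonneg_right h9 (Int.natCast_nonneg _)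
          linarith [habs.1]
      exact_mod_cast this
    · rw [← hp]
      have : (p : ℤ) ≤ C * N := by
        rw [hpz, hCz]
        have h9 : (2 : ℤ) ^ (g : ℕ) * P ≤ 8 * P := mul_le_mul_of_nonneg_right (hg3 g) hPz.le
        have h10 : 2 ^ (g : ℕ) * P * (n : ℤ) ≤ 8 * P * (2 * N) :=
          mul_le_mul h9 hnN (Int.natCast_nonneg _) (by positivity)
        have h11 : (P : ℤ) * (K + 1) ≤ 16 * (P * (K + 1)) * N := by nlinarith
        nlinarith [habs.2]
      exact_mod_cast this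
    · exact k1
    · rw [← hp, hpz]
      have e1 : 2 ^ i * (2 ^ (g : ℕ) * P * (n : ℤ) + ((2 ^ (g : ℕ) - 1) * t + s g (σ g))) +
          (2 ^ i - 1) * t + h =
          2 ^ (g' : ℕ) * P * (n : ℤ) + ((2 ^ (g' : ℕ) - 1) * t + s g' (σ g')) := by
        rw [hh, hi, pow_add]; ring
      rw [e1]
      exact k2
  · intro n hn n' hn' hnn
    have hpos : ∀ z : ℤ, z.toNat.Prime → 0 ≤ z := by
      intro z hz
      by_contra h3
      rw [Int.toNat_of_nonpos (not_le.1 h3).le] at hz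
      exact Nat.not_prime_zero hz
    have k1 := hpos _ ((mem_filter.1 (mem_coe.1 hn)).2.2.2 g hg)
    have k2 := hpos _ ((mem_filter.1 (mem_coe.1 hn')).2.2.2 g hg)
    have e1 : (2 ^ (g : ℕ) * P * (n : ℤ) + ((2 ^ (g : ℕ) - 1) * t + s g (σ g))) =
        (2 ^ (g : ℕ) * P * (n' : ℤ) + ((2 ^ (g : ℕ) - 1) * t + s g (σ g))) := by
      rw [← Int.toNat_of_nonneg k1, ← Int.toNat_of_nonneg k2]
      exact_mod_cast hnn
    have e2 := add_right_cancel e1
    have e3 : (2 : ℤ) ^ (g : ℕ) * P ≠ 0 := by positivity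
    exact_mod_cast mul_left_cancel₀ e3 e2

end Pool.Agent.Y862
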